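import Pool.Agent.H.MP_89dd65_gt.Alt

namespace Pool.Agent.Results.MP_89dd65_gt.Four

open Finset Equiv Real Pool.Agent.H.MP_89dd65_gt

/-- the orientation cocycle: the sign of the oriented area of the triangle `a b c` -/
noncomputable def Or (a b c : Circle) : ℝ :=
  SignType.sign ((starRingEnd ℂ ((b : ℂ) - a) * ((c : ℂ) - a)).im)

noncomputable def Theta (n : ℕ) (θ : Fin (2 * n + 1) → Fin n → Circle) : ℝ :=
  π ^ n / (2 * n + 1).factorial * ∑ σ : Perm (Fin (2 * n + 1)), (Perm.sign σ : ℤ) *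
    ∏ i : Fin n, Or (θ (σ ⟨2 * i, by omega⟩) i) (θ (σ ⟨2 * i + 1, by omega⟩) i)
      (θ (σ ⟨2 * i + 2, by omega⟩) i)

theorem sg (k : ℤ) (h : |k| < 9) : SignType.sign (sin (π / 9 * k)) = SignType.sign k := by
  obtain ⟨h1, h2⟩ := abs_lt.1 h
  have p := pi_pos
  have q : ∀ k : ℤ, 0 < k → k < 9 → 0 < sin (π / 9 * k) := fun k a b => by
    have a : (0 : ℝ) < k := by exact_mod_cast a
    have b : (k : ℝ) < 9 := by exact_mod_cast b
    exact sin_pos_of_pos_of_lt_pi (by positivity) (by nlinarith)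
  rcases lt_trichotomy k 0 with h | rfl | h
  · have := q (-k) (by omega) (by omega)
    rw [Int.cast_neg, mul_neg, sin_neg] at this
    rw [sign_neg h, sign_neg (by linarith)]
  · simp
  · rw [sign_pos h, sign_pos (q k h h2)]

theorem or_eq (a b c : Fin 9) :
    Or (Circle.exp (2 * π / 9) ^ a.val) (Circle.exp (2 * π / 9) ^ b.val)
      (Circle.exp (2 * π / 9) ^ c.val) =
    (((SignType.sign ((b : ℤ) - a) * SignType.sign ((c : ℤ) - b) * SignType.sign ((c : ℤ) - a) :
      SignType) : ℤ) : ℝ) := by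
  have e : ∀ a : ℕ, ((Circle.exp (2 * π / 9) ^ a : Circle) : ℂ) =
      (cos (2 * (π / 9 * a)) : ℝ) + (sin (2 * (π / 9 * a)) : ℝ) * Complex.I := fun a => by
    rw [← Circle.exp_natCast_mul, Circle.coe_exp, Complex.exp_mul_I]
    push_cast
    ring_nf
  have k : ∀ x y z : ℝ, (starRingEnd ℂ (((cos (2 * y) : ℝ) + (sin (2 * y) : ℝ) * Complex.I) -
      ((cos (2 * x) : ℝ) + (sin (2 * x) : ℝ) * Complex.I)) *
      (((cos (2 * z) : ℝ) + (sin (2 * z) : ℝ) * Complex.I) -
      ((cos (2 * x) : ℝ) + (sin (2 * x) : ℝ) * Complex.I))).im =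
      4 * (sin (y - x) * sin (z - y) * sin (z - x)) := fun x y z => by
    simp only [Complex.mul_im, Complex.conj_re, Complex.conj_im, Complex.sub_re, Complex.sub_im,
      Complex.add_re, Complex.add_im, Complex.ofReal_re, Complex.ofReal_im, Complex.mul_re,
      Complex.I_re, Complex.I_im, sin_sub, cos_two_mul', sin_two_mul]
    have hx := sin_sq_add_cos_sq x
    have hy := sin_sq_add_cos_sq y
    have hz := sin_sq_add_cos_sq z
    grind
  have d : ∀ a b : Fin 9, SignType.sign (sin (π / 9 * a.val - π / 9 * b.val)) =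
      SignType.sign ((a : ℤ) - b) := fun a b => by
    rw [← sg _ (by have := a.2; have := b.2; rw [abs_lt]; omega)]
    push_cast
    ring_nf
  unfold Or
  rw [e, e, e, k, sign_mul, sign_mul, sign_mul, d, d, d, sign_pos (by norm_num : (0 : ℝ) < 4), one_mul]
  simp

def P : Fin 4 → Fin 9 → Fin 9 :=
  ![![4, 3, 5, 8, 2, 6, 1, 0, 7], ![8, 4, 5, 6, 3, 0, 1, 7, 2], ![5, 7, 2, 4, 1, 0, 3, 8, 6],
    ![6, 2, 0, 4, 5, 3, 1, 8, 7]]

def S (k : Fin 4) (j : Fin 9) : Fin 9 := ⟨(k + 1) * j % 9, Nat.mod_lt _ (by norm_num)⟩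

theorem th (Q : Fin 4 → Fin 9 → Fin 9) (T : List ℕ) (hT : T = [T.getD 0 0, T.getD 1 0, T.getD 2 0, T.getD 3 0])
    (h : ∀ (i : Fin 4) (a b c : Fin 9), ((SignType.sign ((Q i b : ℤ) - Q i a) *
      SignType.sign ((Q i c : ℤ) - Q i b) * SignType.sign ((Q i c : ℤ) - Q i a) : SignType) : ℤ) =
      om (T.getD i 0) a b c 1) :
    Theta 4 (fun j k => Circle.exp (2 * π / 9) ^ (Q k j).val) =
      π ^ 4 / (9).factorial * pk [0, 1, 2, 3, 4, 5, 6, 7, 8] (R T) := by
  unfold Theta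
  congr 1
  rw [hT]
  refine Eq.trans ?_ (congrArg Int.cast (sum9 fun i => T.getD i 0))
  simp only [or_eq, h, Fin.prod_univ_four]
  push_cast
  refine sum_congr rfl fun σ _ => ?_
  simp only [mul_assoc]
  rfl

theorem result : ∃ n : ℕ, 1 ≤ n ∧ ∃ θ : Fin (2 * n + 1) → Fin n → Circle,
    |Theta n fun j k => Circle.exp (2 * π / (2 * n + 1)) ^ ((k.val + 1) * j.val)| < |Theta n θ| := by
  refine ⟨4, by norm_num, fun j k => Circle.exp (2 * π / 9) ^ (P k j).val, ?_⟩
  have e : (fun (j : Fin (2 * 4 + 1)) (k : Fin 4) => Circle.exp (2 * π / (2 * (4 : ℕ) + 1)) ^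
      ((k.val + 1) * j.val)) = fun j k => Circle.exp (2 * π / 9) ^ (S k j).val := by
    funext j k
    have : Circle.exp (2 * π / 9) ^ 9 = 1 := by
      rw [← Circle.exp_natCast_mul, ← Circle.exp_two_pi]
      congr 1
      push_cast
      ring
    rw [S, ← pow_eq_pow_mod _ this]
    norm_num
  rw [e, th S TS rfl (by decide +kernel), th P TP rfl (by decide +kernel), vS, vP, abs_mul, abs_mul]
  refine mul_lt_mul_of_pos_left (by norm_num [abs_of_pos]) (abs_pos.2 (by positivity))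

end Pool.Agent.Results.MP_89dd65_gt.Four
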